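import Mathlib

set_option autoImplicit false
open FirstOrder FirstOrder.Language

namespace Pool.Agent.Results.MP_e23b49_lc.FiniteSignature

/-! ### The notions of the problem -/

section Notions

variable {L : FirstOrder.Language.{0, 0}}

/-- The algebra `M` satisfies the identities in `E` (pairs of terms in `n` variables), that is, it
lies in the variety defined by `E`. -/
def Satisfies (E : Set (Σ n : ℕ, L.Term (Fin n) × L.Term (Fin n))) (M : Type) [L.Structure M] :
    Prop :=
  ∀ e ∈ E, ∀ v : Fin e.1 → M, e.2.1.realize v = e.2.2.realize v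

/-- `F` is the free algebra of the variety of `E`, with free generators `ι 0, …, ι (n - 1)`. -/
def IsFree (E : Set (Σ n : ℕ, L.Term (Fin n) × L.Term (Fin n))) (F : Type) [L.Structure F]
    {n : ℕ} (ι : Fin n → F) : Prop :=
  Satisfies E F ∧ ∀ (M : Type) [L.Structure M], Satisfies E M →
    ∀ f : Fin n → M, ∃! h : L.Hom F M, ⇑h ∘ ι = f

/-- The logical kernel of a point: the first-order formulas that hold at the tuple `a`. -/
def lker {M : Type} [L.Structure M] {m : ℕ} (a : Fin m → M) : Set (L.Formula (Fin m)) :=
  {φ | φ.Realize a}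

/-- `M` and `N` are LG-equivalent: they have the same logical kernels of points. -/
def LGEquivalent (L : FirstOrder.Language.{0, 0}) (M N : Type) [L.Structure M] [L.Structure N] :
    Prop :=
  ∀ m : ℕ, {p : Set (L.Formula (Fin m)) | ∃ a : Fin m → M, lker a = p} =
    {p : Set (L.Formula (Fin m)) | ∃ b : Fin m → N, lker b = p}

/-- `F` is logically separable in the variety of `E`. -/
def LogicallySeparable (E : Set (Σ n : ℕ, L.Term (Fin n) × L.Term (Fin n))) (F : Type)
    [L.Structure F] : Prop :=
  ∀ (H : Type) [L.Structure H], Satisfies E H → LGEquivalent L F H → Nonempty (L.Equiv F H)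

/-- `F` is logically homogeneous. -/
def LogicallyHomogeneous (L : FirstOrder.Language.{0, 0}) (F : Type) [L.Structure F] : Prop :=
  ∀ (m : ℕ) (a b : Fin m → F), lker (L := L) a = lker b ↔ ∃ σ : L.Equiv F F, ⇑σ ∘ b = a

/-- The variety of `E` is logically regular: its finitely generated free algebras are logically
separable. -/
def LogicallyRegular (E : Set (Σ n : ℕ, L.Term (Fin n) × L.Term (Fin n))) : Prop :=
  ∀ (n : ℕ) (F : Type) [L.Structure F] (ι : Fin n → F), IsFree E F ι → LogicallySeparable E F

/-- The variety of `E` is logically perfect: its finitely generated free algebras are logically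
homogeneous. -/
def LogicallyPerfect (E : Set (Σ n : ℕ, L.Term (Fin n) × L.Term (Fin n))) : Prop :=
  ∀ (n : ℕ) (F : Type) [L.Structure F] (ι : Fin n → F), IsFree E F ι → LogicallyHomogeneous L F

end Notions

/-! ### The variety -/

/-- Function symbols: four unary symbols, `t j` and `f j` for `j : Bool`. -/
inductive Fn : ℕ → Type
  | t : Bool → Fn 1
  | f : Bool → Fn 1

/-- The signature of the counterexample: four unary symbols, no relations. -/
def La : FirstOrder.Language.{0, 0} := ⟨Fn, fun _ => Empty⟩

instance (n : ℕ) : IsEmpty (La.Relations n) := inferInstanceAs (IsEmpty Empty)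

/-- The unary symbol `t b`. -/
def ts (b : Bool) : La.Functions 1 := Fn.t b

/-- The unary symbol `f j`. -/
def fs (j : Bool) : La.Functions 1 := Fn.f j

/-- The application of a unary symbol to a term. -/
def ap {α : Type} (g : La.Functions 1) (s : La.Term α) : La.Term α := Term.func g ![s]

/-- The value of a unary symbol at a point of a structure. -/
def op {M : Type} [La.Structure M] (g : La.Functions 1) (x : M) : M := Structure.funMap g ![x]

/-- The identities `t b (t (!b) x) = x`. -/
def E1 (b : Bool) : Σ n : ℕ, La.Term (Fin n) × La.Term (Fin n) :=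
  ⟨1, ap (ts b) (ap (ts (!b)) (Term.var 0)), Term.var 0⟩

/-- The identities `f j (t b x) = f j x`. -/
def E2 (p : Bool × Bool) : Σ n : ℕ, La.Term (Fin n) × La.Term (Fin n) :=
  ⟨1, ap (fs p.1) (ap (ts p.2) (Term.var 0)), ap (fs p.1) (Term.var 0)⟩

/-- The identities `f j (f i x) = f (j + i) x`. -/
def E3 (p : Bool × Bool) : Σ n : ℕ, La.Term (Fin n) × La.Term (Fin n) :=
  ⟨1, ap (fs p.1) (ap (fs p.2) (Term.var 0)), ap (fs (xor p.1 p.2)) (Term.var 0)⟩

/-- The ten identities of the counterexample. -/
def Ea : Set (Σ n : ℕ, La.Term (Fin n) × La.Term (Fin n)) :=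
  Set.range E1 ∪ Set.range E2 ∪ Set.range E3

theorem vec_eq {M : Type} (v : Fin 1 → M) : v = ![v 0] := by
  funext i
  fin_cases i
  rfl

theorem funMap_op {M : Type} [La.Structure M] (g : La.Functions 1) (v : Fin 1 → M) :
    Structure.funMap g v = op g (v 0) := by
  unfold op
  rw [← vec_eq]

theorem realize_ap {α : Type} {M : Type} [La.Structure M] (g : La.Functions 1) (s : La.Term α)
    (v : α → M) : (ap g s).realize v = op g (s.realize v) := by
  unfold ap
  rw [Term.realize_func, funMap_op]
  rfl

theorem hom_op {M N : Type} [La.Structure M] [La.Structure N] (h : La.Hom M N)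
    (g : La.Functions 1) (x : M) : h (op g x) = op g (h x) := by
  unfold op
  rw [h.map_fun, vec_eq (⇑h ∘ ![x])]
  rfl

/-- A structure satisfies the identities iff the obvious equations hold. -/
theorem sat_iff {M : Type} [La.Structure M] :
    Satisfies Ea M ↔
      (∀ b (x : M), op (ts b) (op (ts (!b)) x) = x) ∧
      (∀ j b (x : M), op (fs j) (op (ts b) x) = op (fs j) x) ∧
      (∀ j i (x : M), op (fs j) (op (fs i) x) = op (fs (xor j i)) x) := by
  constructor
  · intro h
    refine ⟨fun b x => ?_, fun j b x => ?_, fun j i x => ?_⟩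
    · have := h (E1 b) (Or.inl (Or.inl ⟨b, rfl⟩)) (fun _ => x)
      simpa [E1, realize_ap] using this
    · have := h (E2 (j, b)) (Or.inl (Or.inr ⟨(j, b), rfl⟩)) (fun _ => x)
      simpa [E2, realize_ap] using this
    · have := h (E3 (j, i)) (Or.inr ⟨(j, i), rfl⟩) (fun _ => x)
      simpa [E3, realize_ap] using this
  · rintro ⟨h1, h2, h3⟩
    have k1 : ∀ b (v : Fin 1 → M), (ap (ts b) (ap (ts (!b)) (Term.var (0 : Fin 1)))).realize v =
        (Term.var (0 : Fin 1) : La.Term (Fin 1)).realize v := by
      intro b v
      rw [realize_ap, realize_ap]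
      exact h1 b _
    have k2 : ∀ j b (v : Fin 1 → M), (ap (fs j) (ap (ts b) (Term.var (0 : Fin 1)))).realize v =
        (ap (fs j) (Term.var (0 : Fin 1))).realize v := by
      intro j b v
      rw [realize_ap, realize_ap, realize_ap]
      exact h2 j b _
    have k3 : ∀ j i (v : Fin 1 → M), (ap (fs j) (ap (fs i) (Term.var (0 : Fin 1)))).realize v =
        (ap (fs (xor j i)) (Term.var (0 : Fin 1))).realize v := by
      intro j i v
      rw [realize_ap, realize_ap, realize_ap]
      exact h3 j i _
    rintro e ((⟨b, rfl⟩ | ⟨⟨j, b⟩, rfl⟩) | ⟨⟨j, i⟩, rfl⟩) v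
    · exact k1 b v
    · exact k2 j b v
    · exact k3 j i v

/-- The value of a word in the symbols `t b`. -/
def tw {M : Type} [La.Structure M] : List Bool → M → M
  | [], x => x
  | b :: w, x => op (ts b) (tw w x)

/-- The term given by a word in the symbols `t b` and a term. -/
def twT {α : Type} : List Bool → La.Term α → La.Term α
  | [], s => s
  | b :: w, s => ap (ts b) (twT w s)

theorem realize_twT {α : Type} {M : Type} [La.Structure M] (w : List Bool) (s : La.Term α)
    (v : α → M) : (twT w s).realize v = tw w (s.realize v) := by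
  induction w with
  | nil => rfl
  | cons b w ih => rw [twT, realize_ap, ih, tw]

theorem tw_append {M : Type} [La.Structure M] (w w' : List Bool) (x : M) :
    tw (w ++ w') x = tw w (tw w' x) := by
  induction w with
  | nil => rfl
  | cons b w ih => rw [List.cons_append, tw, tw, ih]

/-- The inverse word. -/
def inv : List Bool → List Bool
  | [] => []
  | b :: w => inv w ++ [!b]

theorem tw_inv {M : Type} [La.Structure M] (hM : Satisfies Ea M) (w : List Bool) (x : M) :
    tw (inv w) (tw w x) = x := by
  rw [sat_iff] at hM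
  induction w generalizing x with
  | nil => rfl
  | cons b w ih =>
    rw [inv, tw_append, tw, tw, tw]
    have := hM.1 (!b) (tw w x)
    rw [Bool.not_not] at this
    rw [this, ih]

theorem hom_tw {M N : Type} [La.Structure M] [La.Structure N] (h : La.Hom M N)
    (w : List Bool) (x : M) : h (tw w x) = tw w (h x) := by
  induction w with
  | nil => rfl
  | cons b w ih => rw [tw, hom_op, ih, tw]

/-! ### The variety is logically regular -/

/-- The model with underlying set `Option (Fin n × ℤ)` in which `t true`, `t false` shift the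
second coordinate and all `f j` are constant `none`. -/
@[instance_reducible] def shiftStr (n : ℕ) : La.Structure (Option (Fin n × ℤ)) where
  funMap := fun {m} g v => match m, g, v with
    | _, Fn.t b, v => (v 0).map (fun p => (p.1, if b then p.2 + 1 else p.2 - 1))
    | _, Fn.f _, _ => none
  RelMap := fun r _ => r.elim

section
variable {n : ℕ} {F : Type} [La.Structure F] {ι : Fin n → F}

theorem shift_sat (n : ℕ) : @Satisfies La Ea (Option (Fin n × ℤ)) (shiftStr n) := by
  let _ := shiftStr n
  rw [sat_iff]
  refine ⟨fun b x => ?_, fun j b x => rfl, fun j i x => rfl⟩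
  rcases x with _ | ⟨p, z⟩
  · rfl
  · cases b
    · show some (p, z + 1 - 1) = some (p, z)
      rw [add_sub_cancel_right]
    · show some (p, z - 1 + 1) = some (p, z)
      rw [sub_add_cancel]

theorem exists_shift (hF : IsFree Ea F ι) : ∃ h : F → Option (Fin n × ℤ),
    (∀ i, h (ι i) = some (i, 0)) ∧ (∀ w j y, h (tw w (op (fs j) y)) = none) ∧
    (∀ w i, ∃ z, h (tw w (ι i)) = some (i, z)) := by
  let _ := shiftStr n
  obtain ⟨h, hh, -⟩ := hF.2 (Option (Fin n × ℤ)) (shift_sat n) (fun i => some (i, 0))
  have h0 : ∀ i, h (ι i) = some (i, 0) := fun i => congrFun hh i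
  refine ⟨h, h0, fun w j y => ?_, fun w i => ?_⟩
  · rw [hom_tw, hom_op]
    have e1 : (op (fs j) (h y) : Option (Fin n × ℤ)) = none := rfl
    rw [e1]
    induction w with
    | nil => rfl
    | cons b w ih => rw [tw, ih]; rfl
  · rw [hom_tw, h0]
    induction w with
    | nil => exact ⟨0, rfl⟩
    | cons b w ih =>
      obtain ⟨z, hz⟩ := ih
      rw [tw, hz]
      exact ⟨_, rfl⟩

theorem gen_ne (hF : IsFree Ea F ι) (i : Fin n) (w : List Bool) (j : Bool) (y : F) :
    tw w (op (fs j) y) ≠ ι i := by
  intro he
  obtain ⟨h, h0, h1, -⟩ := exists_shift hF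
  have := h1 w j y
  rw [he, h0] at this
  cases this

theorem gen_inj (hF : IsFree Ea F ι) {i i' : Fin n} {w : List Bool} (he : ι i = tw w (ι i')) :
    i = i' := by
  obtain ⟨h, h0, -, h2⟩ := exists_shift hF
  obtain ⟨z, hz⟩ := h2 w i'
  rw [← he, h0] at hz
  exact congrArg Prod.fst (Option.some.inj hz)

theorem gen_term (hF : IsFree Ea F ι) (x : F) : ∃ t : La.Term (Fin n), t.realize ι = x := by
  let S := Substructure.closure La (Set.range ι)
  have hS : ∀ g (x : F), x ∈ S → op g x ∈ S := by
    intro g x hx
    refine S.fun_mem g ![x] ?_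
    intro i
    fin_cases i
    exact hx
  have hsS : Satisfies Ea S := by
    have hs := hF.1
    rw [sat_iff] at hs ⊢
    have e1 : ∀ g (y : S), ((op g y : S) : F) = op g (y : F) := by
      intro g y
      exact hom_op S.subtype.toHom g y
    refine ⟨fun b x => ?_, fun j b x => ?_, fun j i x => ?_⟩
    · apply Subtype.ext
      rw [e1, e1]
      exact hs.1 b x
    · apply Subtype.ext
      rw [e1, e1, e1]
      exact hs.2.1 j b x
    · apply Subtype.ext
      rw [e1, e1, e1]
      exact hs.2.2 j i x
  obtain ⟨g, hg, -⟩ := hF.2 S hsS (fun i => ⟨ι i, Substructure.subset_closure ⟨i, rfl⟩⟩)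
  obtain ⟨h0, -, hu⟩ := hF.2 F hF.1 ι
  have e1 : S.subtype.toHom.comp g = h0 := by
    apply hu
    funext i
    have := congrFun hg i
    simp only [Function.comp] at this ⊢
    show S.subtype (g (ι i)) = ι i
    rw [this]
    rfl
  have e2 : Hom.id La F = h0 := hu _ rfl
  have hx : x ∈ S := by
    have : S.subtype (g x) = x := by
      have := DFunLike.congr_fun (e1.trans e2.symm) x
      exact this
    rw [← this]
    exact (g x).2
  rw [Substructure.mem_closure_iff_exists_term] at hx
  obtain ⟨t, ht⟩ := hx
  choose r hr using fun s : Set.range ι => s.2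
  refine ⟨t.relabel r, ?_⟩
  rw [Term.realize_relabel, ← ht]
  congr 1
  funext s
  exact hr s

/-- Every element is `w (f j y)` or `w (ι i)` for a word `w` in the `t b`. -/
theorem gen_form (hF : IsFree Ea F ι) (x : F) :
    (∃ w j y, x = tw w (op (fs j) y)) ∨ ∃ w i, x = tw w (ι i) := by
  obtain ⟨t, rfl⟩ := gen_term hF x
  induction t with
  | var i => exact Or.inr ⟨[], i, rfl⟩
  | func g us ih =>
    cases g with
    | t b =>
      have e : Term.realize ι (Term.func (ts b) us) = op (ts b) ((us 0).realize ι) :=
        funMap_op (M := F) (ts b) (fun i => (us i).realize ι)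
      rcases ih 0 with ⟨w, j, y, h⟩ | ⟨w, i, h⟩
      · left
        refine ⟨b :: w, j, y, ?_⟩
        change Term.realize ι (Term.func (ts b) us) = _
        rw [e, h, tw]
      · right
        refine ⟨b :: w, i, ?_⟩
        change Term.realize ι (Term.func (ts b) us) = _
        rw [e, h, tw]
    | f j =>
      left
      refine ⟨[], j, (us 0).realize ι, ?_⟩
      exact funMap_op (M := F) (fs j) (fun i => (us i).realize ι)

end

/-- The formula saying that the value of the `i`-th variable is not of the form `w (f j y)`. -/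
def notVal {n : ℕ} (i : Fin n) (w : List Bool) (j : Bool) : La.Formula (Fin n) :=
  ((((twT w (ap (fs j) (Term.var (Sum.inr 0) : La.Term (Fin n ⊕ Fin 1)))).bdEqual
    (Term.var (Sum.inl i)))).not).all

theorem realize_notVal {M : Type} [La.Structure M] {n : ℕ} (i : Fin n) (w : List Bool) (j : Bool)
    (v : Fin n → M) : (notVal i w j).Realize v ↔ ∀ y, tw w (op (fs j) y) ≠ v i := by
  unfold notVal Formula.Realize
  rw [BoundedFormula.realize_all]
  refine forall_congr' fun y => ?_
  rw [BoundedFormula.realize_not, BoundedFormula.realize_bdEqual, realize_twT, realize_ap]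
  simp only [Term.realize_var, Sum.elim_inl, Sum.elim_inr]
  rfl

/-- The formula saying that the terms `s` and `t` have the same value. -/
def eqF {n : ℕ} (s t : La.Term (Fin n)) : La.Formula (Fin n) := s.equal t

theorem realize_eqF {M : Type} [La.Structure M] {n : ℕ} (s t : La.Term (Fin n)) (v : Fin n → M) :
    (eqF s t).Realize v ↔ s.realize v = t.realize v := Formula.realize_equal

/-- Types realised in `F` are realised in `H`. -/
theorem transfer {F H : Type} [La.Structure F] [La.Structure H] (hc : LGEquivalent La F H)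
    {m : ℕ} (a : Fin m → F) :
    ∃ b : Fin m → H, ∀ φ : La.Formula (Fin m), φ.Realize b ↔ φ.Realize a := by
  have h : lker (L := La) a ∈ {p : Set (La.Formula (Fin m)) | ∃ b : Fin m → H, lker b = p} := by
    rw [← hc m]
    exact ⟨a, rfl⟩
  obtain ⟨b, hb⟩ := h
  refine ⟨b, fun φ => ?_⟩
  have : φ ∈ lker (L := La) b ↔ φ ∈ lker (L := La) a := by rw [hb]
  exact this

theorem lg_symm {F H : Type} [La.Structure F] [La.Structure H] (hc : LGEquivalent La F H) :
    LGEquivalent La H F := fun m => (hc m).symm

theorem regular : LogicallyRegular Ea := by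
  intro n F _ ι hF H _ hsH hc
  obtain ⟨a, ha⟩ := transfer hc ι
  obtain ⟨h, hh, -⟩ := hF.2 H hsH a
  have hcomp : ∀ t : La.Term (Fin n), h (t.realize ι) = t.realize a := by
    intro t
    rw [← hh, HomClass.realize_term]
  have hinj : Function.Injective h := by
    intro x y hxy
    obtain ⟨s, rfl⟩ := gen_term hF x
    obtain ⟨t, rfl⟩ := gen_term hF y
    rw [hcomp, hcomp] at hxy
    have := (realize_eqF s t a).2 hxy
    rw [ha] at this
    exact (realize_eqF s t ι).1 this
  have hsurj : Function.Surjective h := by
    intro y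
    obtain ⟨b, hb⟩ := transfer (lg_symm hc) (Fin.snoc a y : Fin (n + 1) → H)
    have h1 : ∀ (i : Fin n) w j z, tw w (op (fs j) z) ≠ b i.castSucc := by
      intro i w j
      have e1 : (notVal i w j).Realize a := by
        rw [ha, realize_notVal]
        intro y
        exact gen_ne hF i w j y
      have e2 : (notVal i.castSucc w j).Realize b := by
        rw [hb, realize_notVal]
        rw [realize_notVal] at e1
        intro z
        rw [Fin.snoc_castSucc]
        exact e1 z
      rw [realize_notVal] at e2
      exact e2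
    have h2 : ∀ i : Fin n, ∃ (w : List Bool) (j : Fin n), b i.castSucc = tw w (ι j) := by
      intro i
      rcases gen_form hF (b i.castSucc) with ⟨w, j, y, he⟩ | ⟨w, j, he⟩
      · exact absurd he.symm (h1 i w j y)
      · exact ⟨w, j, he⟩
    choose u π hπ using h2
    have hπi : Function.Injective π := by
      intro i i' he
      have e1 : b i.castSucc = tw (u i ++ inv (u i')) (b i'.castSucc) := by
        rw [tw_append, hπ i', tw_inv hF.1, hπ i, he]
      have e2 := (realize_eqF (Term.var i.castSucc)
        (twT (u i ++ inv (u i')) (Term.var i'.castSucc)) b).2 (by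
          rw [realize_twT]
          exact e1)
      rw [hb, realize_eqF, realize_twT] at e2
      simp only [Term.realize_var, Fin.snoc_castSucc] at e2
      have e3 := (realize_eqF (Term.var i) (twT (u i ++ inv (u i')) (Term.var i')) a).2 (by
          rw [realize_twT]
          exact e2)
      rw [ha, realize_eqF, realize_twT] at e3
      exact gen_inj hF e3
    have hπs : Function.Surjective π := Finite.surjective_of_injective hπi
    choose ρ hρ using hπs
    have hι : ∀ i, ι i = tw (inv (u (ρ i))) (b (ρ i).castSucc) := by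
      intro i
      rw [hπ, hρ, tw_inv hF.1]
    obtain ⟨t, ht⟩ := gen_term hF (b (Fin.last n))
    -- rewrite `b (last)` as a term in the other `b i`
    let t' : La.Term (Fin (n + 1)) :=
      t.subst (fun i => twT (inv (u (ρ i))) (Term.var (ρ i).castSucc))
    have ht' : t'.realize b = b (Fin.last n) := by
      show (t.subst _).realize b = _
      rw [Term.realize_subst, ← ht]
      congr 1
      funext i
      rw [realize_twT, hι i]
      rfl
    have e1 := (realize_eqF t' (Term.var (Fin.last n)) b).2 ht'
    rw [hb, realize_eqF] at e1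
    simp only [Term.realize_var, Fin.snoc_last] at e1
    refine ⟨(t.subst (fun i => twT (inv (u (ρ i))) (Term.var (ρ i)))).realize ι, ?_⟩
    rw [hcomp, ← e1]
    show _ = (t.subst _).realize _
    rw [Term.realize_subst, Term.realize_subst]
    congr 1
    funext i
    rw [realize_twT, realize_twT]
    simp only [Term.realize_var, Fin.snoc_castSucc]
  exact ⟨{ toEquiv := Equiv.ofBijective h ⟨hinj, hsurj⟩
           map_fun' := fun f x => h.map_fun f x
           map_rel' := fun r x => r.elim }⟩

/-! ### The free algebra on one generator -/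

/-- The free algebra on one generator `x = (0, none)`: `(k, none)` is the `k`-th shift of `x` and
`(k, some j)` is the `k`-th shift of `f j x`. -/
abbrev W : Type := ℤ × Option Bool

/-- The parity of an element of `W`. -/
def par (x : W) : Bool := x.2.elim false id

/-- The shift by `k`. -/
def sh (k : ℤ) (x : W) : W := (x.1 + k, x.2)

/-- The marked points `f j x`. -/
def mk (j : Bool) : W := (0, some j)

instance instW : La.Structure W where
  funMap := fun {m} g v => match m, g, v with
    | _, Fn.t b, v => sh (if b then 1 else -1) (v 0)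
    | _, Fn.f j, v => mk (xor j (par (v 0)))
  RelMap := fun r _ => r.elim

theorem op_t (b : Bool) (x : W) : op (ts b) x = sh (if b then 1 else -1) x := rfl

theorem op_f (j : Bool) (x : W) : op (fs j) x = mk (xor j (par x)) := rfl

theorem sh_sh (k l : ℤ) (x : W) : sh k (sh l x) = sh (l + k) x := by
  simp [sh, add_assoc]

theorem sh_zero (x : W) : sh 0 x = x := by simp [sh]

theorem par_sh (k : ℤ) (x : W) : par (sh k x) = par x := rfl

theorem par_mk (j : Bool) : par (mk j) = j := rfl

theorem sh_inj {k : ℤ} {x y : W} : sh k x = sh k y ↔ x = y := by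
  constructor
  · intro h
    have := congrArg (sh (-k)) h
    rwa [sh_sh, sh_sh, add_neg_cancel, sh_zero, sh_zero] at this
  · rintro rfl
    rfl

theorem W_sat : Satisfies Ea W := by
  rw [sat_iff]
  refine ⟨fun b x => ?_, fun j b x => ?_, fun j i x => ?_⟩
  · rw [op_t, op_t, sh_sh]
    cases b
    · exact sh_zero x
    · exact sh_zero x
  · rw [op_t, op_f, op_f, par_sh]
  · rw [op_f, op_f, op_f, par_mk, Bool.xor_assoc]

/-- The permutation `t true` of an algebra of the variety. -/
def tau {M : Type} [La.Structure M] (hM : Satisfies Ea M) : Equiv.Perm M where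
  toFun := op (ts true)
  invFun := op (ts false)
  left_inv := (sat_iff.1 hM).1 false
  right_inv := (sat_iff.1 hM).1 true

theorem f_tau {M : Type} [La.Structure M] (hM : Satisfies Ea M) (j : Bool) (k : ℤ) (y : M) :
    op (fs j) ((tau hM ^ k) y) = op (fs j) y := by
  have h1 : ∀ z : M, op (fs j) (tau hM z) = op (fs j) z := (sat_iff.1 hM).2.1 j true
  induction k using Int.induction_on with
  | zero => rfl
  | succ i ih => rw [add_comm, zpow_add, zpow_one, Equiv.Perm.mul_apply, h1, ih]
  | pred i ih =>
    rw [← ih]
    have e : (tau hM ^ (-(i : ℤ))) y = tau hM ((tau hM ^ (-(i : ℤ) - 1)) y) := by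
      rw [← Equiv.Perm.mul_apply, ← zpow_one_add]
      congr 2
      ring
    rw [e, h1]

theorem W_free : IsFree Ea W (fun _ : Fin 1 => ((0, none) : W)) := by
  refine ⟨W_sat, ?_⟩
  intro M _ hM f
  let y : M := f 0
  let h0 : W → M := fun x => (tau hM ^ x.1) (x.2.elim y (fun j => op (fs j) y))
  have hf : ∀ j x, h0 (op (fs j) x) = op (fs j) (h0 x) := by
    rintro j ⟨k, c⟩
    rw [op_f]
    show (tau hM ^ (0 : ℤ)) (op (fs (xor j (par (k, c)))) y) = op (fs j) ((tau hM ^ k) _)
    rw [f_tau, zpow_zero, Equiv.Perm.one_apply]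
    rcases c with _ | i
    · show op (fs (xor j false)) y = op (fs j) y
      rw [Bool.xor_false]
    · show op (fs (xor j i)) y = op (fs j) (op (fs i) y)
      rw [(sat_iff.1 hM).2.2]
  have ht : ∀ b x, h0 (op (ts b) x) = op (ts b) (h0 x) := by
    rintro b ⟨k, c⟩
    rw [op_t]
    cases b
    · show (tau hM ^ (k + -1)) _ = (tau hM)⁻¹ ((tau hM ^ k) _)
      rw [← Equiv.Perm.mul_apply, ← zpow_neg_one, ← zpow_add, add_comm]
      rfl
    · show (tau hM ^ (k + 1)) _ = (tau hM) ((tau hM ^ k) _)
      rw [← Equiv.Perm.mul_apply, ← zpow_one_add, add_comm]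
      rfl
  refine ⟨⟨h0, ?_, fun r => r.elim⟩, ?_, ?_⟩
  · intro n g x
    cases g with
    | t b =>
      change h0 (Structure.funMap (M := W) (ts b) x) = Structure.funMap (M := M) (ts b) (h0 ∘ x)
      rw [funMap_op, funMap_op, ht]
      rfl
    | f j =>
      change h0 (Structure.funMap (M := W) (fs j) x) = Structure.funMap (M := M) (fs j) (h0 ∘ x)
      rw [funMap_op, funMap_op, hf]
      rfl
  · funext i
    fin_cases i
    rfl
  · intro g hg
    have hg0 : g ((0, none) : W) = y := congrFun hg 0
    have hz : ∀ (k : ℤ) (x : W), g (sh k x) = (tau hM ^ k) (g x) := by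
      intro k x
      induction k using Int.induction_on with
      | zero => rw [sh_zero]; rfl
      | succ i ih =>
        have e : sh ((i : ℤ) + 1) x = op (ts true) (sh i x) := by
          rw [op_t, sh_sh]
          rfl
        rw [e, hom_op, ih, add_comm, zpow_one_add]
        rfl
      | pred i ih =>
        have e : sh (-(i : ℤ) - 1) x = op (ts false) (sh (-(i : ℤ)) x) := by
          rw [op_t, sh_sh]
          rfl
        rw [e, hom_op, ih, sub_eq_add_neg, add_comm, zpow_add, zpow_neg_one]
        rfl
    apply DFunLike.ext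
    rintro ⟨k, c⟩
    rcases c with _ | j
    · have : ((k, none) : W) = sh k (0, none) := by simp [sh]
      rw [this, hz, hg0, ← this]
      rfl
    · have : ((k, some j) : W) = sh k (op (fs j) (0, none)) := by
        rw [op_f]
        simp [sh, mk, par]
      rw [this, hz, hom_op, hg0, ← this]
      rfl

/-! ### The back-and-forth system -/

/-- Two families of elements have opposite parities and the same distances up to `N`. -/
def Rel (N : ℕ) {β : Type} (u u' : β → W) : Prop :=
  (∀ p, par (u' p) = !par (u p)) ∧
    ∀ (p q : β) (k : ℤ), |k| ≤ N → (u p = sh k (u q) ↔ u' p = sh k (u' q))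

theorem Rel.symm {N : ℕ} {β : Type} {u u' : β → W} (h : Rel N u u') : Rel N u' u :=
  ⟨fun p => by rw [h.1 p, Bool.not_not], fun p q k hk => (h.2 p q k hk).symm⟩

theorem Rel.comp {N : ℕ} {β γ : Type} {u u' : β → W} (h : Rel N u u') (σ : γ → β) :
    Rel N (u ∘ σ) (u' ∘ σ) :=
  ⟨fun p => h.1 (σ p), fun p q k hk => h.2 (σ p) (σ q) k hk⟩

theorem Rel.mono {N N' : ℕ} {β : Type} {u u' : β → W} (h : Rel N' u u') (hN : N ≤ N') :
    Rel N u u' :=
  ⟨h.1, fun p q k hk => h.2 p q k (hk.trans (by exact_mod_cast hN))⟩

theorem eq_sh_iff {x y : W} {k l : ℤ} : sh k x = sh l y ↔ x = sh (l - k) y := by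
  rw [← sh_inj (k := k) (x := x), sh_sh, sub_add_cancel]

theorem Rel.extend {N : ℕ} {β : Type} [Finite β] {u u' : β → W} (h : Rel (2 * N) u u') (a : W) :
    ∃ b : W, Rel N (fun o : Option β => o.elim a u) (fun o : Option β => o.elim b u') := by
  have hN : ∀ k : ℤ, |k| ≤ N → |k| ≤ ((2 * N : ℕ) : ℤ) := by
    intro k hk
    push_cast
    have := abs_nonneg k
    linarith
  have h2 : ∀ k l : ℤ, |k| ≤ N → |l| ≤ N → |l - k| ≤ ((2 * N : ℕ) : ℤ) := by
    intro k l hk hl
    push_cast
    rw [abs_le] at *
    constructor <;> linarith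
  have h3 : ∀ k l : ℤ, |k| ≤ N → |l| ≤ N → |l + k| ≤ ((2 * N : ℕ) : ℤ) := by
    intro k l hk hl
    push_cast
    rw [abs_le] at *
    constructor <;> linarith
  have hself : ∀ (x : W) (k : ℤ), x = sh k x ↔ k = 0 := by
    intro x k
    constructor
    · intro e
      have := congrArg Prod.fst e
      simp only [sh] at this
      linarith
    · rintro rfl
      exact (sh_zero x).symm
  by_cases hc : ∃ (q : β) (k : ℤ), |k| ≤ N ∧ a = sh k (u q)
  · obtain ⟨q, k, hk, rfl⟩ := hc
    refine ⟨sh k (u' q), ?_, ?_⟩
    · rintro (_ | p)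
      · show par (sh k (u' q)) = !par (sh k (u q))
        rw [par_sh, par_sh, h.1]
      · exact h.1 p
    · rintro (_ | p) (_ | p') l hl
      · show sh k (u q) = sh l (sh k (u q)) ↔ sh k (u' q) = sh l (sh k (u' q))
        rw [hself, hself]
      · show sh k (u q) = sh l (u p') ↔ sh k (u' q) = sh l (u' p')
        rw [eq_sh_iff, eq_sh_iff]
        exact h.2 q p' (l - k) (h2 k l hk hl)
      · show u p = sh l (sh k (u q)) ↔ u' p = sh l (sh k (u' q))
        rw [sh_sh, sh_sh, add_comm]
        exact h.2 p q (l + k) (h3 k l hk hl)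
      · exact h.2 p p' l (hN l hl)
  · push Not at hc
    obtain ⟨B, hB⟩ : ∃ B : ℤ, ∀ q, (u' q).1 ≤ B := by
      obtain ⟨B, hB⟩ := (Set.finite_range (fun q => (u' q).1)).bddAbove
      exact ⟨B, fun q => hB ⟨q, rfl⟩⟩
    refine ⟨(B + N + 1, some (!par a)), ?_, ?_⟩
    · rintro (_ | p)
      · rfl
      · exact h.1 p
    · have hb : ∀ (l : ℤ) (p : β), |l| ≤ N →
          ((B + N + 1, some (!par a)) : W) ≠ sh l (u' p) := by
        intro l p hl e
        have e1 := congrArg Prod.fst e
        simp only [sh] at e1
        have := hB p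
        rw [abs_le] at hl
        linarith
      have hb' : ∀ (l : ℤ) (p : β), |l| ≤ N →
          u' p ≠ sh l ((B + N + 1, some (!par a)) : W) := by
        intro l p hl e
        apply hb (-l) p (by rwa [abs_neg])
        rw [e, sh_sh, add_neg_cancel, sh_zero]
      have ha' : ∀ (l : ℤ) (p : β), |l| ≤ N → u p ≠ sh l a := by
        intro l p hl e
        apply hc p (-l) (by rwa [abs_neg])
        rw [e, sh_sh, add_neg_cancel, sh_zero]
      rintro (_ | p) (_ | p') l hl
      · show a = sh l a ↔ _ = sh l _
        rw [hself, hself]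
      · exact iff_of_false (hc p' l hl) (hb l p' hl)
      · exact iff_of_false (ha' l p hl) (hb' l p hl)
      · exact h.2 p p' l (hN l hl)

/-- The family `v` together with the two marked points. -/
def ext {α : Type} (v : α → W) : α ⊕ Bool → W := Sum.elim v mk

/-- The family `v` together with the two marked points in the opposite order. -/
def ext' {α : Type} (v : α → W) : α ⊕ Bool → W := Sum.elim v (fun j => mk (!j))

theorem term_rel {α : Type} (t : La.Term α) : ∃ K : ℕ, ∀ v v' : α → W,
    (∀ a, par (v' a) = !par (v a)) →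
    ∃ (k : ℤ) (p : α ⊕ Bool), |k| ≤ K ∧ t.realize v = sh k (ext v p) ∧
      t.realize v' = sh k (ext' v' p) := by
  induction t with
  | var x => exact ⟨0, fun v v' _ => ⟨0, Sum.inl x, by simp, (sh_zero _).symm, (sh_zero _).symm⟩⟩
  | @func n g us ih =>
    cases g with
    | t b =>
      obtain ⟨K, hK⟩ := ih 0
      refine ⟨K + 1, fun v v' hv => ?_⟩
      obtain ⟨k, p, hk, h1, h2⟩ := hK v v' hv
      have e : ∀ w : α → W, Term.realize w (Term.func (ts b) us) = op (ts b) ((us 0).realize w) :=
        fun w => funMap_op (M := W) (ts b) (fun i => (us i).realize w)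
      refine ⟨k + (if b then 1 else -1), p, ?_, ?_, ?_⟩
      · push_cast
        rw [abs_le] at hk ⊢
        cases b
        · simp only [Bool.false_eq_true, if_false]
          constructor <;> linarith
        · simp only [if_true]
          constructor <;> linarith
      · change Term.realize v (Term.func (ts b) us) = _
        rw [e, h1, op_t, sh_sh]
      · change Term.realize v' (Term.func (ts b) us) = _
        rw [e, h2, op_t, sh_sh]
    | f j =>
      obtain ⟨K, hK⟩ := ih 0
      refine ⟨0, fun v v' hv => ?_⟩
      obtain ⟨k, p, hk, h1, h2⟩ := hK v v' hv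
      have e : ∀ w : α → W, Term.realize w (Term.func (fs j) us) = op (fs j) ((us 0).realize w) :=
        fun w => funMap_op (M := W) (fs j) (fun i => (us i).realize w)
      have hpar : par (ext' v' p) = !par (ext v p) := by
        rcases p with a | i
        · exact hv a
        · rfl
      refine ⟨0, Sum.inr (xor j (par (ext v p))), by simp, ?_, ?_⟩
      · change Term.realize v (Term.func (fs j) us) = _
        rw [e, h1, op_f, par_sh, sh_zero]
        rfl
      · change Term.realize v' (Term.func (fs j) us) = _
        rw [e, h2, op_f, par_sh, sh_zero, hpar, Bool.xor_not]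
        rfl

theorem formula_rel {α : Type} [Finite α] {n : ℕ} (φ : La.BoundedFormula α n) :
    ∃ K : ℕ, ∀ (v v' : α → W) (xs xs' : Fin n → W),
      Rel K (ext (Sum.elim v xs)) (ext' (Sum.elim v' xs')) →
      (φ.Realize v xs ↔ φ.Realize v' xs') := by
  induction φ with
  | falsum => exact ⟨0, fun _ _ _ _ _ => Iff.rfl⟩
  | equal t₁ t₂ =>
    obtain ⟨K1, h1⟩ := term_rel t₁
    obtain ⟨K2, h2⟩ := term_rel t₂
    refine ⟨K1 + K2, fun v v' xs xs' h => ?_⟩
    have hpar : ∀ a, par (Sum.elim v' xs' a) = !par (Sum.elim v xs a) := fun a => h.1 (Sum.inl a)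
    obtain ⟨k1, p1, b1, e1, e1'⟩ := h1 (Sum.elim v xs) (Sum.elim v' xs') hpar
    obtain ⟨k2, p2, b2, e2, e2'⟩ := h2 (Sum.elim v xs) (Sum.elim v' xs') hpar
    change t₁.realize (Sum.elim v xs) = t₂.realize (Sum.elim v xs) ↔
      t₁.realize (Sum.elim v' xs') = t₂.realize (Sum.elim v' xs')
    rw [e1, e2, e1', e2', eq_sh_iff, eq_sh_iff]
    apply h.2 p1 p2 (k2 - k1)
    push_cast
    rw [abs_le] at *
    constructor <;> linarith
  | rel R ts => exact R.elim
  | imp f₁ f₂ ih1 ih2 =>
    obtain ⟨K1, h1⟩ := ih1
    obtain ⟨K2, h2⟩ := ih2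
    refine ⟨max K1 K2, fun v v' xs xs' h => ?_⟩
    rw [BoundedFormula.realize_imp, BoundedFormula.realize_imp,
      h1 v v' xs xs' (h.mono (le_max_left _ _)), h2 v v' xs xs' (h.mono (le_max_right _ _))]
  | @all n f ih =>
    obtain ⟨K, hK⟩ := ih
    refine ⟨2 * K, fun v v' xs xs' h => ?_⟩
    let σ : (α ⊕ Fin (n + 1)) ⊕ Bool → Option ((α ⊕ Fin n) ⊕ Bool) := fun q => match q with
      | Sum.inl (Sum.inl x) => some (Sum.inl (Sum.inl x))
      | Sum.inl (Sum.inr i) => Fin.lastCases none (fun i => some (Sum.inl (Sum.inr i))) i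
      | Sum.inr j => some (Sum.inr j)
    have hσ : ∀ (a : W) (w : α → W) (ys : Fin n → W),
        ext (Sum.elim w (Fin.snoc ys a : Fin (n + 1) → W)) =
          (fun o : Option ((α ⊕ Fin n) ⊕ Bool) => o.elim a (ext (Sum.elim w ys))) ∘ σ := by
      intro a w ys
      funext q
      rcases q with (x | i) | j
      · rfl
      · refine Fin.lastCases ?_ (fun i => ?_) i
        · simp [ext, σ]
        · simp [ext, σ]
      · rfl
    have hσ' : ∀ (a : W) (w : α → W) (ys : Fin n → W),
        ext' (Sum.elim w (Fin.snoc ys a : Fin (n + 1) → W)) =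
          (fun o : Option ((α ⊕ Fin n) ⊕ Bool) => o.elim a (ext' (Sum.elim w ys))) ∘ σ := by
      intro a w ys
      funext q
      rcases q with (x | i) | j
      · rfl
      · refine Fin.lastCases ?_ (fun i => ?_) i
        · simp [ext', σ]
        · simp [ext', σ]
      · rfl
    rw [BoundedFormula.realize_all, BoundedFormula.realize_all]
    constructor
    · intro hx b
      obtain ⟨a, ha⟩ := h.symm.extend b
      have h4 := (ha.symm).comp σ
      rw [← hσ, ← hσ'] at h4
      exact (hK _ _ _ _ h4).1 (hx a)
    · intro hx a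
      obtain ⟨b, hb⟩ := h.extend a
      have h4 := hb.comp σ
      rw [← hσ, ← hσ'] at h4
      exact (hK _ _ _ _ h4).2 (hx b)

theorem same_type (φ : La.Formula (Fin 1)) :
    φ.Realize (fun _ => mk false) ↔ φ.Realize (fun _ => mk true) := by
  obtain ⟨K, hK⟩ := formula_rel φ
  unfold Formula.Realize
  refine hK _ _ _ _ ?_
  let τ : (Fin 1 ⊕ Fin 0) ⊕ Bool → Bool := Sum.elim (fun _ => false) id
  have e1 : ∀ xs : Fin 0 → W, ext (Sum.elim (fun _ : Fin 1 => mk false) xs) = mk ∘ τ := by
    intro xs
    funext q
    rcases q with (x | i) | j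
    · rfl
    · exact i.elim0
    · rfl
  have e2 : ∀ xs : Fin 0 → W, ext' (Sum.elim (fun _ : Fin 1 => mk true) xs) =
      (fun j => mk (!j)) ∘ τ := by
    intro xs
    funext q
    rcases q with (x | i) | j
    · rfl
    · exact i.elim0
    · rfl
  rw [e1, e2]
  apply Rel.comp
  refine ⟨fun p => rfl, fun p q k _ => ?_⟩
  simp only [mk, sh, Prod.mk.injEq, Option.some.injEq]
  cases p <;> cases q <;> simp

theorem no_aut (σ : La.Equiv W W) : σ (mk true) ≠ mk false := by
  intro he
  have hf : ∀ j x, σ (op (fs j) x) = op (fs j) (σ x) := fun j x => hom_op σ.toHom (fs j) x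
  have hz : ∀ (k : ℤ) (x : W), σ (sh k x) = sh k (σ x) := by
    intro k x
    have ht : ∀ b x, σ (op (ts b) x) = op (ts b) (σ x) := fun b x => hom_op σ.toHom (ts b) x
    induction k using Int.induction_on with
    | zero => rw [sh_zero, sh_zero]
    | succ i ih =>
      have e : ∀ x : W, sh ((i : ℤ) + 1) x = op (ts true) (sh i x) := by
        intro x
        rw [op_t, sh_sh]
        rfl
      rw [e, e, ht, ih]
    | pred i ih =>
      have e : ∀ x : W, sh (-(i : ℤ) - 1) x = op (ts false) (sh (-(i : ℤ)) x) := by
        intro x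
        rw [op_t, sh_sh]
        rfl
      rw [e, e, ht, ih]
  have hx : (σ ((0, none) : W)).2 = none := by
    rcases hc : (σ ((0, none) : W)).2 with _ | j
    · rfl
    · exfalso
      obtain ⟨y, hy⟩ := σ.toEquiv.surjective (0, none)
      have hy : σ y = (0, none) := hy
      obtain ⟨l, c⟩ := y
      rcases c with _ | i
      · have e1 : ((l, none) : W) = sh l (0, none) := by simp [sh]
        rw [e1, hz] at hy
        have := congrArg Prod.snd hy
        simp only [sh] at this
        rw [hc] at this
        cases this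
      · have e1 : ((l, some i) : W) = sh l (op (fs i) (0, none)) := by
          rw [op_f]
          simp [sh, mk, par]
        rw [e1, hz, hf, op_f] at hy
        have := congrArg Prod.snd hy
        cases this
  have e1 : mk true = op (fs true) ((0, none) : W) := by
    rw [op_f]
    simp [par]
  rw [e1, hf, op_f] at he
  have h2 : par (σ ((0, none) : W)) = false := by
    unfold par
    rw [hx]
    rfl
  rw [h2] at he
  have := congrArg Prod.snd he
  simp [mk] at this

instance : Finite (Σ n, La.Functions n) := by
  have : Finite (Bool × Bool) := inferInstance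
  refine Finite.of_surjective (fun p : Bool × Bool =>
    (if p.1 then ⟨1, Fn.t p.2⟩ else ⟨1, Fn.f p.2⟩ : Σ n, La.Functions n)) ?_
  rintro ⟨n, g⟩
  cases g with
  | t b => exact ⟨(true, b), rfl⟩
  | f j => exact ⟨(false, j), rfl⟩

theorem Ea_finite : Ea.Finite :=
  ((Set.finite_range E1).union (Set.finite_range E2)).union (Set.finite_range E3)

/-- **A finitely based variety with a finite signature that is logically regular but not
logically perfect.** -/
theorem result : (∀ n, IsEmpty (La.Relations n)) ∧ Finite (Σ n, La.Functions n) ∧ Ea.Finite ∧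
    LogicallyRegular Ea ∧ ¬ LogicallyPerfect Ea := by
  refine ⟨inferInstance, inferInstance, Ea_finite, regular, ?_⟩
  intro h
  have h1 := (h 1 W (fun _ => ((0, none) : W)) W_free) 1 (fun _ => mk false) (fun _ => mk true)
  obtain ⟨σ, hσ⟩ := h1.1 (Set.ext fun φ => same_type φ)
  exact no_aut σ (congrFun hσ 0)

end Pool.Agent.Results.MP_e23b49_lc.FiniteSignature
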